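import Mathlib

open Set

namespace Pool.Agent.Results.MP_ca7a0e_gt.Homeo

/-- `B(κ,a,b)` inside `ℝ^κ` with the product topology. -/
def B (κ : Type) (a b : κ → ℝ) : Set (κ → ℝ) :=
  {x | (∀ F : Finset κ, ∑ i ∈ F, |x i| ≤ 1) ∧ ∀ i, a i ≤ x i ∧ x i ≤ b i}

noncomputable def ph (t m : ℝ) : ℝ := (2 * t - max (min m 1) t) / max (min m 1) t

lemma ph_pos {t : ℝ} (h1 : 1 / 2 < t) (m : ℝ) : 0 < ph t m :=
  div_pos (by have := max_lt (show min m 1 < 2 * t by linarith [min_le_right m 1])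
                (show t < 2 * t by linarith)
              linarith) (lt_max_of_lt_right (by linarith))

lemma ph_cont {t : ℝ} (h1 : 1 / 2 < t) : Continuous (ph t) :=
  Continuous.div (by fun_prop) (by fun_prop) fun m =>
    (lt_max_of_lt_right (by linarith) : 0 < max (min m 1) t).ne'

noncomputable def mv {κ : Type} (σ : κ → κ) (g : ℝ → ℝ) (x : κ → ℝ) (i : κ) : ℝ :=
  (x i + x (σ i) + g (x i + x (σ i)) * (x i - x (σ i))) / 2

lemma mv_add {κ : Type} {σ : κ → κ} (hσ : ∀ i, σ (σ i) = i) (g : ℝ → ℝ) (x : κ → ℝ) (i : κ) :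
    mv σ g x i + mv σ g x (σ i) = x i + x (σ i) := by
  simp only [mv, hσ, add_comm (x (σ i)) (x i)]
  ring

lemma mv_sub {κ : Type} {σ : κ → κ} (hσ : ∀ i, σ (σ i) = i) (g : ℝ → ℝ) (x : κ → ℝ) (i : κ) :
    mv σ g x i - mv σ g x (σ i) = g (x i + x (σ i)) * (x i - x (σ i)) := by
  simp only [mv, hσ, add_comm (x (σ i)) (x i)]
  ring

lemma mv_mv {κ : Type} {σ : κ → κ} (hσ : ∀ i, σ (σ i) = i) {g g' : ℝ → ℝ}
    (h : ∀ m, g' m * g m = 1) (x : κ → ℝ) : mv σ g' (mv σ g x) = x := by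
  funext i
  rw [mv, mv_add hσ, mv_sub hσ, ← mul_assoc, h]
  ring

lemma mv_sum {κ : Type} {σ : κ → κ} (hσ : ∀ i, σ (σ i) = i) (g : ℝ → ℝ) {x : κ → ℝ}
    (hx : ∀ F : Finset κ, ∑ i ∈ F, |x i| ≤ 1) (h0 : ∀ i, 0 ≤ x i) (h1 : ∀ i, 0 ≤ mv σ g x i)
    (F : Finset κ) : ∑ i ∈ F, |mv σ g x i| ≤ 1 := by
  classical
  have hG : ∀ i, i ∈ F ∪ F.image σ → σ i ∈ F ∪ F.image σ := fun i hi => by
    rcases Finset.mem_union.1 hi with h | h
    · exact Finset.mem_union_right _ (Finset.mem_image_of_mem σ h)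
    · obtain ⟨j, hj, rfl⟩ := Finset.mem_image.1 h
      rw [hσ]
      exact Finset.mem_union_left _ hj
  have hs : ∀ y : κ → ℝ, ∑ i ∈ F ∪ F.image σ, y (σ i) = ∑ i ∈ F ∪ F.image σ, y i := fun y =>
    Finset.sum_nbij' σ σ hG hG (fun i _ => hσ i) (fun i _ => hσ i) fun _ _ => rfl
  have e1 : ∑ i ∈ F ∪ F.image σ, (mv σ g x i + mv σ g x (σ i)) =
      ∑ i ∈ F ∪ F.image σ, (x i + x (σ i)) := Finset.sum_congr rfl fun i _ => mv_add hσ g x i
  rw [Finset.sum_add_distrib, Finset.sum_add_distrib, hs, hs] at e1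
  have e2 := hx (F ∪ F.image σ)
  simp only [abs_of_nonneg (h0 _)] at e2
  simp only [abs_of_nonneg (h1 _)]
  have e3 : ∑ i ∈ F, mv σ g x i ≤ ∑ i ∈ F ∪ F.image σ, mv σ g x i :=
    Finset.sum_le_sum_of_subset_of_nonneg Finset.subset_union_left fun i _ _ => h1 i
  linarith

lemma mv_cont {κ : Type} (σ : κ → κ) {g : ℝ → ℝ} (hg : Continuous g) : Continuous (mv σ g) :=
  continuous_pi fun i => by unfold mv; fun_prop

theorem key (κ : Type) [Infinite κ] {t : ℝ} (h1 : 1 / 2 < t) (h2 : t < 1) :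
    Nonempty (B κ (fun _ => 0) (fun _ => 1) ≃ₜ B κ (fun _ => 0) (fun _ => t)) := by
  classical
  obtain ⟨e⟩ : Nonempty (κ ⊕ κ ≃ κ) :=
    Cardinal.eq.1 (by simpa using Cardinal.add_eq_self (Cardinal.aleph0_le_mk κ))
  let σ : κ → κ := fun i => e (e.symm i).swap
  have hσ : ∀ i, σ (σ i) = i := fun i => by simp [σ]
  have hne : ∀ i, i ≠ σ i := fun i h => by
    have : e.symm i = (e.symm i).swap := by
      conv_lhs => rw [h]
      simp [σ]
    revert this
    cases e.symm i <;> simp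
  have hm : ∀ x : κ → ℝ, (∀ F : Finset κ, ∑ i ∈ F, |x i| ≤ 1) → (∀ i, 0 ≤ x i) →
      ∀ i, x i + x (σ i) ≤ 1 := fun x hx h0 i => by
    have := hx {i, σ i}
    rwa [Finset.sum_pair (hne i), abs_of_nonneg (h0 _), abs_of_nonneg (h0 _)] at this
  have hA : ∀ x ∈ B κ (fun _ => 0) (fun _ => 1), ∀ i, 0 ≤ mv σ (ph t) x i ∧ mv σ (ph t) x i ≤ t := by
    intro x hx i
    have a0 := (hx.2 i).1
    have b0 := (hx.2 (σ i)).1
    have hm1 := hm x hx.1 (fun i => (hx.2 i).1) i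
    unfold mv ph
    rw [min_eq_left hm1]
    rcases le_total (x i + x (σ i)) t with h | h
    · rw [max_eq_right h, show 2 * t - t = t by ring, div_self (by linarith)]
      constructor <;> linarith
    · rw [max_eq_left h]
      have hp : 0 < x i + x (σ i) := by linarith
      have e1 : |(x i - x (σ i)) / (x i + x (σ i))| ≤ 1 := by
        rw [abs_div, abs_of_pos hp, div_le_one hp, abs_le]
        constructor <;> linarith
      rw [div_mul_eq_mul_div, mul_div_assoc]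
      have := abs_le.1 e1
      constructor <;> nlinarith [this.1, this.2]
  have hB : ∀ x ∈ B κ (fun _ => 0) (fun _ => t), ∀ i, 0 ≤ mv σ (fun m => (ph t m)⁻¹) x i := by
    intro x hx i
    have a0 : 0 ≤ x i ∧ x i ≤ t := hx.2 i
    have b0 : 0 ≤ x (σ i) ∧ x (σ i) ≤ t := hx.2 (σ i)
    have hm1 := hm x hx.1 (fun i => (hx.2 i).1) i
    unfold mv ph
    dsimp only
    rw [min_eq_left hm1]
    rcases le_total (x i + x (σ i)) t with h | h
    · rw [max_eq_right h, show 2 * t - t = t by ring, div_self (by linarith), inv_one]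
      linarith [a0.1]
    · rw [max_eq_left h, inv_div]
      have hp : 0 < 2 * t - (x i + x (σ i)) := by linarith
      have e1 : -1 ≤ (x i - x (σ i)) / (2 * t - (x i + x (σ i))) := by
        rw [le_div_iff₀ hp]
        linarith [b0.2]
      rw [div_mul_eq_mul_div, mul_div_assoc]
      nlinarith
  refine ⟨{ toFun := fun x => ⟨mv σ (ph t) x.1,
              mv_sum hσ _ x.2.1 (fun i => (x.2.2 i).1) fun i => (hA x.1 x.2 i).1, hA x.1 x.2⟩
            invFun := fun x => ⟨mv σ (fun m => (ph t m)⁻¹) x.1,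
              mv_sum hσ _ x.2.1 (fun i => (x.2.2 i).1) (hB x.1 x.2), fun i => ⟨hB x.1 x.2 i,
                (le_abs_self _).trans (by
                  simpa using mv_sum hσ _ x.2.1 (fun i => (x.2.2 i).1) (hB x.1 x.2) {i})⟩⟩
            left_inv := fun x => Subtype.ext (mv_mv hσ (fun m => inv_mul_cancel₀ (ph_pos h1 m).ne') _)
            right_inv := fun x => Subtype.ext (mv_mv hσ (fun m => mul_inv_cancel₀ (ph_pos h1 m).ne') _)
            continuous_toFun := ((mv_cont σ (ph_cont h1)).comp continuous_subtype_val).subtype_mk _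
            continuous_invFun := ((mv_cont σ ((ph_cont h1).inv₀ fun m => (ph_pos h1 m).ne')).comp
              continuous_subtype_val).subtype_mk _ }⟩

theorem result (κ : Type) [Uncountable κ] (s t : ℝ) (hs : 1 / 2 < s) (hs1 : s < 1)
    (ht : 1 / 2 < t) (ht1 : t < 1) :
    Nonempty (B κ (fun _ => 0) (fun _ => 1) ≃ₜ B κ (fun _ => 0) (fun _ => t)) ∧
    Nonempty (B κ (fun _ => 0) (fun _ => s) ≃ₜ B κ (fun _ => 0) (fun _ => t)) := by
  obtain ⟨e⟩ := key κ hs hs1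
  obtain ⟨f⟩ := key κ ht ht1
  exact ⟨⟨f⟩, ⟨e.symm.trans f⟩⟩

end Pool.Agent.Results.MP_ca7a0e_gt.Homeo
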